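import Pool.Agent.X171.IE.Lower

/-!
# MP_a5b52c_an: the bounded-part (I)-envelope need not be norm-dense in the (I)-envelope
-/

namespace Pool.Agent.Results.MP_a5b52c_an.NotDense

open Pool.Agent.X171.IE

/-- **Q1, answered negatively.** There are a real Banach space `X` and a set `A` of functionals on
`X` such that `0` belongs to the (I)-envelope of `A` while every element of the bounded-part
(I)-envelope of `A` has norm at least `1`; in particular the latter is not norm-dense in the
former. -/
theorem result : ∃ (X : Type) (_ : NormedAddCommGroup X) (_ : NormedSpace ℝ X)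
    (_ : CompleteSpace X) (A : Set (StrongDual ℝ X)),
    (0 ∈ Ienv A) ∧ (∀ ψ ∈ Ienvb A, 1 ≤ ‖ψ‖) ∧ ¬ (Ienv A ⊆ closure (Ienvb A)) := by
  have h1 : ∀ ψ ∈ Ienvb A, 1 ≤ ‖ψ‖ := by
    intro ψ hψ
    rw [Ienvb, Set.mem_iUnion] at hψ
    obtain ⟨n, hn⟩ := hψ
    exact upper hn
  refine ⟨X, inferInstance, inferInstance, inferInstance, A, lower, h1, ?_⟩
  intro h
  have h2 := h lower
  obtain ⟨ψ, hψ, hd⟩ := Metric.mem_closure_iff.mp h2 1 one_pos
  rw [dist_comm, dist_zero_right] at hd
  exact absurd (h1 ψ hψ) (not_le.mpr hd)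

end Pool.Agent.Results.MP_a5b52c_an.NotDense
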